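import Mathlib

set_option autoImplicit false

/-!
# Partition regularity over `T` and over the positive integers are not equivalent

The pattern `{x, x ^ 2 + x ^ 2 * z}` is partition regular over the positive integers (even with all
variables larger than any prescribed bound, distinct variables and distinct values), but two colours
on the semiring `T` of nonzero one-variable polynomials with natural coefficients and zero constant
term already destroy it.
-/

namespace Pool.Agent.Results.MP_700e60_co.NotEquivalent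

open MvPolynomial

/-- A polynomial pattern: a finite family of nonzero polynomials in `m` variables with natural
number coefficients and zero constant term. -/
def IsPattern {m k : ℕ} (P : Fin k → MvPolynomial (Fin m) ℕ) : Prop :=
  ∀ i, P i ≠ 0 ∧ constantCoeff (P i) = 0

/-- The positive integers, as a subset of the semiring `ℕ`. -/
def PosNat : Set ℕ := {n | 0 < n}

/-- The set `T` of nonzero polynomials in one variable with natural number coefficients and zero
constant term. -/
def T : Set (Polynomial ℕ) := {f | f ≠ 0 ∧ f.coeff 0 = 0}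

/-- The pattern `P` is partition regular over the subset `S` of the commutative semiring `R`: for
every colouring of `S` with finitely many colours there are elements `a 0, a 1, …` of `S` at which
all members of the pattern take values in `S` of one and the same colour. -/
def PartitionRegularOver {R : Type} [CommSemiring R] (S : Set R) {m k : ℕ}
    (P : Fin k → MvPolynomial (Fin m) ℕ) : Prop :=
  ∀ (r : ℕ) (c : S → Fin r), ∃ a : Fin m → R, (∀ i, a i ∈ S) ∧ ∃ j : Fin r, ∀ i,
    ∃ h : aeval a (P i) ∈ S, c ⟨aeval a (P i), h⟩ = j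

/-- A strong form of partition regularity over the positive integers: the variables can moreover
be taken larger than any given bound and pairwise distinct, with pairwise distinct values. -/
def StronglyRegular {m k : ℕ} (P : Fin k → MvPolynomial (Fin m) ℕ) : Prop :=
  ∀ (M r : ℕ) (c : PosNat → Fin r), ∃ a : Fin m → ℕ, (∀ i, M < a i) ∧ Function.Injective a ∧
    Function.Injective (fun i => aeval a (P i)) ∧ ∃ j : Fin r, ∀ i,
      ∃ h : aeval a (P i) ∈ PosNat, c ⟨aeval a (P i), h⟩ = j

/-- The pattern `{x, x ^ 2 + x ^ 2 * z}`. -/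
noncomputable def pat : Fin 2 → MvPolynomial (Fin 2) ℕ :=
  ![X 0, X 0 ^ 2 + X 0 ^ 2 * X 1]

theorem isPattern_pat : IsPattern pat := by
  intro i
  fin_cases i
  · refine ⟨?_, ?_⟩
    · simp [pat]
    · simp [pat]
  · refine ⟨?_, ?_⟩
    · intro h
      have h2 := congrArg (fun p => eval (fun _ : Fin 2 => (1 : ℕ)) p) h
      simp [pat] at h2
    · simp [pat]

/-- The sequence `u 0 = M + 1`, `u (n + 1) = u n ^ 2 * (u n + M + 2)`. -/
def u (M : ℕ) : ℕ → ℕ
  | 0 => M + 1
  | n + 1 => u M n ^ 2 * (u M n + M + 2)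

theorem u_gt (M n : ℕ) : M < u M n := by
  induction n with
  | zero => simp [u]
  | succ n ih =>
    have h1 : 1 ≤ u M n := by omega
    have h2 : 1 ≤ u M n ^ 2 := Nat.one_le_pow _ _ h1
    have h3 : 1 * (u M n + M + 2) ≤ u M n ^ 2 * (u M n + M + 2) := Nat.mul_le_mul_right _ h2
    simp only [u]
    omega

theorem u_mul (M i : ℕ) : ∀ d : ℕ, ∃ z : ℕ, u M (i + 1 + d) = u M i ^ 2 * (1 + z) ∧
    u M i + M + 1 ≤ z := by
  intro d
  induction d with
  | zero =>
    refine ⟨u M i + M + 1, ?_, le_rfl⟩
    simp only [u]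
    ring
  | succ d ih =>
    obtain ⟨z, hz, hzM⟩ := ih
    have hu : 1 ≤ u M (i + 1 + d) := by have := u_gt M (i + 1 + d); omega
    have hw : 1 ≤ u M (i + 1 + d) * (u M (i + 1 + d) + M + 2) :=
      Nat.succ_le_of_lt (Nat.mul_pos hu (by omega))
    have h4 : (1 + z) * 1 ≤ (1 + z) * (u M (i + 1 + d) * (u M (i + 1 + d) + M + 2)) :=
      Nat.mul_le_mul_left _ hw
    refine ⟨(1 + z) * (u M (i + 1 + d) * (u M (i + 1 + d) + M + 2)) - 1, ?_, ?_⟩
    · have e : 1 + ((1 + z) * (u M (i + 1 + d) * (u M (i + 1 + d) + M + 2)) - 1)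
          = (1 + z) * (u M (i + 1 + d) * (u M (i + 1 + d) + M + 2)) := by omega
      rw [e]
      have e2 : u M (i + 1 + (d + 1)) = u M (i + 1 + d) ^ 2 * (u M (i + 1 + d) + M + 2) := rfl
      rw [e2]
      calc u M (i + 1 + d) ^ 2 * (u M (i + 1 + d) + M + 2)
          = u M (i + 1 + d) * (u M (i + 1 + d) * (u M (i + 1 + d) + M + 2)) := by ring
        _ = (u M i ^ 2 * (1 + z)) * (u M (i + 1 + d) * (u M (i + 1 + d) + M + 2)) := by
            nth_rewrite 1 [hz]
            rfl
        _ = _ := by ring
    · omega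

theorem stronglyRegular_pat : StronglyRegular pat := by
  intro M r c
  have hpos : ∀ n, u M n ∈ PosNat := fun n => by
    have := u_gt M n
    show 0 < u M n
    omega
  obtain ⟨i, j, hij, hc⟩ := Finite.exists_ne_map_eq_of_infinite
    (fun n : ℕ => c ⟨u M n, hpos n⟩)
  wlog hlt : i < j generalizing i j with H
  · exact H j i (Ne.symm hij) hc.symm (by omega)
  obtain ⟨d, rfl⟩ : ∃ d, j = i + 1 + d := ⟨j - (i + 1), by omega⟩
  obtain ⟨z, hz, hzM⟩ := u_mul M i d
  have hu := u_gt M i
  have hval0 : aeval (![u M i, z] : Fin 2 → ℕ) (pat 0) = u M i := by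
    simp [pat]
  have hval1 : aeval (![u M i, z] : Fin 2 → ℕ) (pat 1) = u M (i + 1 + d) := by
    rw [hz]
    simp [pat]
    ring
  have hlt2 : u M i < u M (i + 1 + d) := by
    rw [hz]
    have h1 : 1 ≤ u M i := by omega
    nlinarith [Nat.mul_le_mul h1 h1]
  refine ⟨![u M i, z], ?_, ?_, ?_, c ⟨u M i, hpos i⟩, ?_⟩
  · intro k
    fin_cases k
    · exact hu
    · show M < z
      omega
  · intro k l hkl
    fin_cases k <;> fin_cases l <;> simp at hkl ⊢ <;> omega
  · intro k l hkl
    fin_cases k <;> fin_cases l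
    · rfl
    · exfalso
      have : aeval (![u M i, z] : Fin 2 → ℕ) (pat 0) = aeval (![u M i, z] : Fin 2 → ℕ) (pat 1) := hkl
      omega
    · exfalso
      have : aeval (![u M i, z] : Fin 2 → ℕ) (pat 1) = aeval (![u M i, z] : Fin 2 → ℕ) (pat 0) := hkl
      omega
    · rfl
  · intro k
    fin_cases k
    · refine ⟨?_, ?_⟩
      · show aeval (![u M i, z] : Fin 2 → ℕ) (pat 0) ∈ PosNat
        rw [hval0]; exact hpos i
      · congr 1
        exact Subtype.ext hval0
    · refine ⟨?_, ?_⟩
      · show aeval (![u M i, z] : Fin 2 → ℕ) (pat 1) ∈ PosNat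
        rw [hval1]; exact hpos _
      · have hc' : c ⟨u M i, hpos i⟩ = c ⟨u M (i + 1 + d), hpos _⟩ := hc
        rw [hc']
        congr 1
        exact Subtype.ext hval1

theorem regular_of_strong {m k : ℕ} (P : Fin k → MvPolynomial (Fin m) ℕ)
    (h : StronglyRegular P) : PartitionRegularOver PosNat P := by
  intro r c
  obtain ⟨a, h1, -, -, h4⟩ := h 0 r c
  exact ⟨a, h1, h4⟩

/-- The `2`-colouring of `T` that destroys the pattern: the parity of the `2`-adic valuation of the
order of vanishing at `0`. -/
noncomputable def col (f : T) : Fin 2 :=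
  ⟨padicValNat 2 (f.1.natTrailingDegree) % 2, Nat.mod_lt _ (by norm_num)⟩

theorem trailing (x z : Polynomial ℕ) (hx : x ∈ T) (hz : z ∈ T) :
    (x ^ 2 + x ^ 2 * z).natTrailingDegree = 2 * x.natTrailingDegree := by
  have h1 : x ^ 2 + x ^ 2 * z = x ^ 2 * (1 + z) := by ring
  have hc : (1 + z).coeff 0 = 1 := by simp [hz.2]
  have h1z : (1 + z) ≠ 0 := by
    intro h
    rw [h] at hc
    simp at hc
  have hx2 : x ^ 2 ≠ 0 := pow_ne_zero _ hx.1
  rw [h1, Polynomial.natTrailingDegree_mul hx2 h1z]
  have h2 : (1 + z).natTrailingDegree = 0 := by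
    apply Nat.le_zero.mp
    apply Polynomial.natTrailingDegree_le_of_ne_zero
    rw [hc]; norm_num
  rw [h2, sq, Polynomial.natTrailingDegree_mul hx.1 hx.1]
  ring

theorem trailing_pos (x : Polynomial ℕ) (hx : x ∈ T) : 0 < x.natTrailingDegree := by
  rw [Nat.pos_iff_ne_zero]
  intro h
  have := (Polynomial.natTrailingDegree_eq_zero (p := x)).mp h
  rcases this with h | h
  · exact hx.1 h
  · exact h hx.2

theorem aeval_pat_zero {R : Type} [CommSemiring R] (a : Fin 2 → R) :
    aeval a (pat 0) = a 0 := by simp [pat]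

theorem aeval_pat_one {R : Type} [CommSemiring R] (a : Fin 2 → R) :
    aeval a (pat 1) = a 0 ^ 2 + a 0 ^ 2 * a 1 := by simp [pat]

theorem not_regular_T : ¬ PartitionRegularOver T pat := by
  intro h
  obtain ⟨a, ha, j, hj⟩ := h 2 col
  obtain ⟨h0, hc0⟩ := hj 0
  obtain ⟨h1, hc1⟩ := hj 1
  have e0 := aeval_pat_zero a
  have e1 := aeval_pat_one a
  have hcc := hc0.trans hc1.symm
  simp only [col, Fin.mk.injEq] at hcc
  rw [e0, e1, trailing (a 0) (a 1) (ha 0) (ha 1),
    padicValNat.mul (by norm_num) (trailing_pos _ (ha 0)).ne', padicValNat_self] at hcc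
  omega

/-- There is a polynomial pattern that is partition regular over the positive integers (even in the
strong sense) but not partition regular over `T`. -/
theorem result : ∃ (m k : ℕ) (P : Fin k → MvPolynomial (Fin m) ℕ), IsPattern P ∧
    StronglyRegular P ∧ PartitionRegularOver PosNat P ∧ ¬ PartitionRegularOver T P :=
  ⟨2, 2, pat, isPattern_pat, stronglyRegular_pat, regular_of_strong _ stronglyRegular_pat,
    not_regular_T⟩

end Pool.Agent.Results.MP_700e60_co.NotEquivalent
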